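import Pool.Agent.Y107.SJ.Bridge

/-!
# Hartshorne's conjecture for hypersurfaces given by sums of forms in disjoint sets of variables

Let `F = f_0(x_0) + ... + f_r(x_r)` be a sum of forms of degree `d` in disjoint sets of variables,
`m_s` variables for `f_s`, `m_s ≥ d ≥ 3`, and let `V = {F = 0}` or `V = {F = z^d}` be smooth of
dimension `n` (the Fermat hypersurfaces with at least `d` variables are the best known example). Then
`CH^i(V) = ℚ[h^i]` for all `i < n / 2` with `i ≤ r + 1` for `V = {F = 0}`, and with `i ≤ r + 2` for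
`V = {F = z^d}`, or for `V = {F = 0}` if one of the `f_s` has more than `d` variables. For the Fermat
hypersurfaces of degree `d` and dimension `n` this is `i ≤ ⌈(n + 2) / d⌉`, `i < n / 2`.

The Chow groups and the cohomology enter through their formal properties (`IsChowProj`,
`IsWeilProj`), the hypersurfaces through the diagrams of Shioda and Katsura: for forms `f(x)` and `g(y)` the
rational map `((x : z), (y : w)) ↦ (w x : z y)` from `{f = z^d} × {-g = w^d}` to `{f + g = 0}` is resolved
by the blow-up of `{f = 0} × {g = 0}`. The facts about this diagram used are listed in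
`Diagram.IsBlowUp`, `Diagram.IsPolarized` and `Diagram.IsEquivariant`. The only input on cycles is
that the Fano hypersurfaces `{f_s = z^d}` and `{f_s = z^d + w^d}` have coniveau at least one, that is,
`CH_0 = ℚ` (Bloch-Srinivas).

The proof: the primitive part of the motive of `V` is a direct factor of
`h(X₁)_prim ⊗ h(X₂)_prim ⊕ h(Y₁)_prim ⊗ h(Y₂)_prim (1)`, so that the Chow coniveaus of the pieces add up; a
coniveau `≥ c` of `V` gives the conjecture in codimension `≤ c + 1` by the theory of the Picard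
variety.
-/

set_option autoImplicit false

open CategoryTheory AlgebraicGeometry

universe u v w

namespace Pool.Agent.Results.MP_4be043_ag.SumsOfForms

open Pool.Agent.H914 Pool.Agent.H914.VarClass Pool.Agent.W492.BB Pool.Agent.TH133
  Pool.Agent.Y107.SJ

/-- (1) The one step theorem: the coniveau of `V = {f + g = 0}`. (2) Let `A` be the sum of the
`α s`, `s ≤ r`, in a tower (`A = r + 1` if all `f_s` have at least `d` variables). Then the Chow
groups `CH^i`, `i < n / 2`, of `X r = {F_r = z^d}` are spanned by `h^i` for `i ≤ A + 1`, those of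
`Y r = {F_r = 0}` for `i ≤ A`, and for `i ≤ A + 1` if one of the `y s = {f_s = 0}`, `s ≤ r`, has coniveau at
least `α s` (for `α s = 1`: if `f_s` has more than `d` variables). -/
theorem result {k : Type u} [Field k] {𝒱 : VarClass k} (C : TheoryData.{u, v, 0} 𝒱 ℚ)
    [IsChowProj C] {K : Type w} [Field K] (H : WeilTheoryData.{u, v, w} C K) [IsWeilProj H]
    (hPic : PicardProperty H) :
    (∀ (V X₁ X₂ Y₁ Y₂ : Pol C), ShiodaKatsura V X₁ X₂ Y₁ Y₂ → ∀ a₁ a₂ b₁ b₂ c : ℕ,
      HasConiveau X₁ a₁ → HasConiveau X₂ a₂ → HasConiveau Y₁ b₁ → HasConiveau Y₂ b₂ →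
      c ≤ a₁ + a₂ → c ≤ b₁ + b₂ + 1 → HasConiveau V c ∧
        (IsLefschetz H V → HartshorneUpTo (c + 1) V)) ∧
    ∀ (α : ℕ → ℕ) (Y X y x x' : ℕ → Pol C), IsTower α Y X y x x' → ∀ r : ℕ,
      (IsLefschetz H (X r) → HartshorneUpTo (∑ s ∈ Finset.range (r + 1), α s + 1) (X r)) ∧
      (IsLefschetz H (Y r) → 0 < ∑ s ∈ Finset.range (r + 1), α s →
        HartshorneUpTo (∑ s ∈ Finset.range (r + 1), α s) (Y r)) ∧
      (IsLefschetz H (Y r) → (∃ s ≤ r, HasConiveau (y s) (α s)) →
        HartshorneUpTo (∑ s ∈ Finset.range (r + 1), α s + 1) (Y r)) := by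
  refine ⟨fun V X₁ X₂ Y₁ Y₂ h a₁ a₂ b₁ b₂ c h1 h2 h3 h4 h5 h6 => ?_,
    fun α Y X y x x' h r => ⟨fun hL => ?_, fun hL h0 => ?_, fun hL hs => ?_⟩⟩
  · have h7 := coniveau_step h h1 h2 h3 h4 h5 h6
    exact ⟨h7, fun hL => hartshorneUpTo h7 hL hPic⟩
  · exact hartshorneUpTo (tower h r).1 hL hPic
  · have h1 := hartshorneUpTo (tower h r).2 hL hPic
    rwa [Nat.sub_add_cancel h0] at h1
  · obtain ⟨s, hs, hy⟩ := hs
    exact hartshorneUpTo (tower' h r s hs hy) hL hPic

end Pool.Agent.Results.MP_4be043_ag.SumsOfForms
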